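import Pool.Agent.Run7.h144.Suslin
import Pool.Agent.Run7.h144.MAK
import Pool.Agent.Run7.h144.Sequential

/-!
# Sequentiality of compact subspaces of `C_p(Y)` does not follow from Martin's axiom for posets
with property (K)

`SequentialStatement` is the conclusion of the question MP_ee7661_gt: for every Lindelöf Tychonoff
space `Y`, every compact subspace of `C_p(Y)` is sequential. The theorem `result` says:

1. there is a preordered set `P` of conditions every element of which forces that all cardinals
   are preserved, that Martin's axiom for `ℵ₁` dense sets and preorders with property (K) holds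
   (`MartinKHolds P Om1`), and that there is a rich Suslin tree (`RichSuslinHolds P`);
2. `MartinKFor Om1`, the proposition translated by `MartinKHolds P Om1`, is equivalent to the
   usual form `MartinK` of this axiom;
3. `MartinK` implies that the continuum hypothesis fails;
4. if there is a rich Suslin tree (`RichSuslin`, the proposition translated by `RichSuslinHolds`)
   then some Lindelöf Tychonoff space `Y` has a compact subspace of `C_p(Y)` which is not
   sequential and even has uncountable tightness; so `SequentialStatement` fails.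
-/

set_option autoImplicit false

namespace Pool.Agent.Results.MP_ee7661_gt.NotSequentialUnderMAK

open Cardinal Pool.Agent.Helper669.Forcing Pool.Agent.W684.FM Run7.h144

/-- For every Lindelöf Tychonoff space `Y`, every compact subspace of `C_p(Y)` is sequential. (The
set `K` of continuous functions carries the subspace topology of `ℝ^Y`, the topology of pointwise
convergence.) -/
def SequentialStatement : Prop :=
  ∀ (Y : Type) [TopologicalSpace Y] [T35Space Y], LindelofSpace Y →
    ∀ K : Set (Y → ℝ), (∀ f ∈ K, Continuous f) → IsCompact K → SequentialSpace K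

theorem result :
    (∃ (P : Type) (_ : Preorder P), Nonempty P ∧ ∀ p : P,
      p ∈ CardinalsPreserved.{0, 0} P ∧ p ∈ OmegaOnePreserved P ∧
        p ∈ MartinKHolds P Om1 ∧ p ∈ RichSuslinHolds P) ∧
    (MartinKFor Om1 ↔ MartinK) ∧
    (MartinK → (ℵ₁ : Cardinal.{0}) < 𝔠) ∧
    (RichSuslin → ∃ (Y : Type) (_ : TopologicalSpace Y), T35Space Y ∧ LindelofSpace Y ∧
      ∃ K : Set (Y → ℝ), (∀ f ∈ K, Continuous f) ∧ IsCompact K ∧ ¬ SequentialSpace K ∧
        ∃ G ⊆ K, ∃ f ∈ K, f ∈ closure G ∧ ∀ C ⊆ G, C.Countable → f ∉ closure C) ∧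
    (RichSuslin → ¬ SequentialStatement) := by
  have hspace : RichSuslin → ∃ (Y : Type) (_ : TopologicalSpace Y), T35Space Y ∧ LindelofSpace Y ∧
      ∃ K : Set (Y → ℝ), (∀ f ∈ K, Continuous f) ∧ IsCompact K ∧ ¬ SequentialSpace K ∧
        ∃ G ⊆ K, ∃ f ∈ K, f ∈ closure G ∧ ∀ C ⊆ G, C.Countable → f ∉ closure C := by
    intro h
    obtain ⟨Y, τ, h1, h2, K, h3, h4, h5⟩ := exists_of_richSuslin h
    exact ⟨Y, τ, h1, h2, K, h3, h4, not_sequential h5, h5⟩
  refine ⟨?_, martinKFor_iff, not_CH_of_martinK, hspace, ?_⟩
  · let W : Type := (Order.succ #Om1).ord.ToType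
    have hW : Bdd Om1 W := bdd_succ Om1
    obtain ⟨w0, _⟩ := hW ∅ (by simp)
    obtain ⟨o, _, ho⟩ := WellFounded.has_min (wellFounded_lt (α := W)) Set.univ ⟨w0, trivial⟩
    have ho' : ∀ w, o ≤ w := fun w => not_lt.1 (ho w trivial)
    refine ⟨Run7.h144.PP (bd o ho'), inferInstance, ⟨⟨∅, valid_empty _⟩⟩, fun p => ?_⟩
    exact ⟨(Run7.h144.pccc _).cardinalsPreserved p, (Run7.h144.pccc _).omegaOnePreserved p,
      martinKHolds hW p, richSuslinHolds p⟩
  · intro h hS
    obtain ⟨Y, τ, h1, h2, K, h4, h5, h6, _⟩ := hspace h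
    exact h6 (hS Y h2 K h4 h5)

end Pool.Agent.Results.MP_ee7661_gt.NotSequentialUnderMAK
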